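import Pool.Agent.Ovo.Ovg

/-!
MP_c6a9b1_co, ovoids of the Hermitian polar spaces `H(2n+1,q^2)`.

Bounds for groups of elations preserving an ovoid of `H(2n+1,q^2)`, `n ≥ 2`: the transvections
number at most `q`, the quotient at most `q^2`, the whole group has fewer than `q^3` elements and
is never transitive on the other points of the ovoid. In particular there are no translation
ovoids.
-/

namespace Pool.Agent.Results.MP_c6a9b1_co.ElationGroups

open scoped LinearAlgebra.Projectivization

variable {K : Type} [Field K]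

/-- The Hermitian form `x_0 y_0^q + ... + x_(m-1) y_(m-1)^q` on `K^m`. -/
def herm (q : ℕ) {m : ℕ} (x y : Fin m → K) : K := ∑ i, x i * y i ^ q

/-- Totally isotropic subspaces. -/
def IsTI (q : ℕ) {m : ℕ} (M : Submodule K (Fin m → K)) : Prop :=
  ∀ x ∈ M, ∀ y ∈ M, herm q x y = 0

/-- Generators: maximal totally isotropic subspaces. -/
def IsGenerator (q : ℕ) {m : ℕ} (M : Submodule K (Fin m → K)) : Prop :=
  Maximal (IsTI q) M

/-- An ovoid: a set of points of the polar space such that every generator contains exactly one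
of its points. -/
def IsOvoid (q : ℕ) {m : ℕ} (O : Set (ℙ K (Fin m → K))) : Prop :=
  (∀ P ∈ O, IsTI q P.submodule) ∧
    ∀ M : Submodule K (Fin m → K), IsGenerator q M → ∃! P : ℙ K (Fin m → K), P ∈ O ∧ P.submodule ≤ M

/-- Elations with centre `x`: isometries of the Hermitian form which fix `x` and act trivially on
the quotient of the hyperplane perpendicular to `x` by `x`. -/
def IsElation (q : ℕ) {m : ℕ} (x : Fin m → K) (g : (Fin m → K) ≃ₗ[K] (Fin m → K)) : Prop :=
  (∀ u v, herm q (g u) (g v) = herm q u v) ∧ g x = x ∧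
    ∀ u, herm q u x = 0 → ∃ a : K, g u = u + a • x

/-- The image of a point under a linear automorphism. -/
def act {m : ℕ} (g : (Fin m → K) ≃ₗ[K] (Fin m → K)) (P : ℙ K (Fin m → K)) : ℙ K (Fin m → K) :=
  P.map g.toLinearMap g.injective

/-- The orbit of a point under a group of linear automorphisms. -/
def orb {m : ℕ} (G : Subgroup ((Fin m → K) ≃ₗ[K] (Fin m → K))) (P : ℙ K (Fin m → K)) :
    Set (ℙ K (Fin m → K)) :=
  {Q | ∃ g ∈ G, act g P = Q}

/-- `G` is a group of elations with centre `x` and preserves `O`. -/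
def IsElationGroup (q : ℕ) {m : ℕ} (O : Set (ℙ K (Fin m → K))) (x : Fin m → K)
    (G : Subgroup ((Fin m → K) ≃ₗ[K] (Fin m → K))) : Prop :=
  ∀ g ∈ G, IsElation q x g ∧ ∀ P ∈ O, act g P ∈ O

/-- The elements of `G` which are the identity on the hyperplane perpendicular to `x`. -/
def transv (q : ℕ) {m : ℕ} (x : Fin m → K) (G : Subgroup ((Fin m → K) ≃ₗ[K] (Fin m → K))) :
    Set ((Fin m → K) ≃ₗ[K] (Fin m → K)) :=
  {g | g ∈ G ∧ ∀ u, herm q u x = 0 → g u = u}

section bridge

variable [Finite K] {q m : ℕ}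

/-- The form as an abstract Hermitian form. -/
theorem exists_form (hK : Nat.card K = q ^ 2) :
    ∃ F : Ovo.HF K (Fin m → K), (∀ x y, F.H x y = herm q x y) ∧ ∀ a, F.bar a = a ^ q := by
  obtain ⟨bar, hb1, hb2⟩ := Ovo.exists_bar hK
  have hq := Ovo.two_le_q hK
  refine ⟨{ bar := bar, bb := hb2, H := herm q, addl := ?_, smull := ?_, symm := ?_, nd := ?_ },
    fun x y => rfl, hb1⟩
  · intro u v w
    simp only [herm, Pi.add_apply, add_mul, Finset.sum_add_distrib]
  · intro a u w
    simp only [herm, Pi.smul_apply, smul_eq_mul, Finset.mul_sum, mul_assoc]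
  · intro u v
    simp only [herm, map_sum, map_mul]
    refine Finset.sum_congr rfl (fun i _ => ?_)
    rw [map_pow, hb1 (u i), ← hb1 (bar (v i)), hb2, mul_comm]
  · intro u hu
    funext i
    classical
    have h1 := hu (Pi.single i 1)
    simp only [herm] at h1
    rw [Finset.sum_eq_single i] at h1
    · have h2 : u i ^ q = 0 := by simpa using h1
      exact eq_zero_of_pow_eq_zero h2
    · intro j _ hj
      rw [Pi.single_eq_of_ne hj, zero_mul]
    · intro h
      exact absurd (Finset.mem_univ i) h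

/-- The nonzero vectors spanning the points of `O`. -/
def spans (O : Set (ℙ K (Fin m → K))) (v : Fin m → K) : Prop :=
  ∃ h : v ≠ 0, Projectivization.mk K v h ∈ O

omit [Finite K] in
theorem TI_eq (F : Ovo.HF K (Fin m → K)) (hF : ∀ x y, F.H x y = herm q x y) :
    F.TI = IsTI q := by
  funext M
  simp only [Ovo.HF.TI, IsTI, hF]

omit [Finite K] in
theorem act_mk (g : (Fin m → K) ≃ₗ[K] (Fin m → K)) (v : Fin m → K) (hv : v ≠ 0) (hgv : g v ≠ 0) :
    act g (Projectivization.mk K v hv) = Projectivization.mk K (g v) hgv := by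
  rw [act, Projectivization.map_mk]
  rfl

omit [Finite K] in
theorem ovoid_Ov (F : Ovo.HF K (Fin m → K)) (hF : ∀ x y, F.H x y = herm q x y)
    {O : Set (ℙ K (Fin m → K))} (hO : IsOvoid q O) : F.Ov (spans O) where
  ne := fun v hv => hv.1
  iso := by
    rintro v ⟨hv, hvO⟩
    rw [hF]
    apply hO.1 _ hvO
    · rw [Projectivization.submodule_mk]
      exact Submodule.mem_span_singleton_self v
    · rw [Projectivization.submodule_mk]
      exact Submodule.mem_span_singleton_self v
  sm := by
    rintro a v ha ⟨hv, hvO⟩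
    refine ⟨smul_ne_zero ha hv, ?_⟩
    have h1 : Projectivization.mk K (a • v) (smul_ne_zero ha hv) = Projectivization.mk K v hv := by
      rw [Projectivization.mk_eq_mk_iff']
      exact ⟨a, rfl⟩
    rw [h1]
    exact hvO
  ex := by
    intro M hM
    rw [TI_eq F hF] at hM
    obtain ⟨P, ⟨hP1, hP2⟩, _⟩ := hO.2 M hM
    refine ⟨P.rep, hP2 ?_, P.rep_nonzero, by rwa [Projectivization.mk_rep]⟩
    rw [Projectivization.submodule_eq]
    exact Submodule.mem_span_singleton_self _
  uniq := by
    rintro M hM v hv w hw ⟨hv0, hvO⟩ ⟨hw0, hwO⟩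
    rw [TI_eq F hF] at hM
    have h1 := (hO.2 M hM).unique (y₁ := Projectivization.mk K v hv0)
      (y₂ := Projectivization.mk K w hw0)
      ⟨hvO, by rwa [Projectivization.submodule_mk, Submodule.span_singleton_le_iff_mem]⟩
      ⟨hwO, by rwa [Projectivization.submodule_mk, Submodule.span_singleton_le_iff_mem]⟩
    obtain ⟨a, ha⟩ := (Projectivization.mk_eq_mk_iff' K w v hw0 hv0).1 h1.symm
    exact ⟨a, ha.symm⟩

end bridge

/-- Let `n ≥ 2`, let `K` be the field with `q^2` elements and `O` an ovoid of `H(2n+1,q^2)`, let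
`x` span a point of `O` and let `G` be a group of elations with centre `x` preserving `O`. Then at
most `q` elements of `G` are transvections (identity on the hyperplane perpendicular to `x`), the
order of `G` is at most `q^2` times this number and less than `q^3`, and `G` is not transitive on
the points of `O` other than the point of `x`: for every such point `P` there is another point `Q`
not in the orbit of `P`. -/
theorem result (n q : ℕ) (hn : 2 ≤ n) (K : Type) [Field K] [Finite K] (hK : Nat.card K = q ^ 2)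
    (O : Set (ℙ K (Fin (2 * n + 2) → K))) (hO : IsOvoid q O)
    (x : Fin (2 * n + 2) → K) (hx : x ≠ 0) (hxO : Projectivization.mk K x hx ∈ O)
    (G : Subgroup ((Fin (2 * n + 2) → K) ≃ₗ[K] (Fin (2 * n + 2) → K)))
    (hG : IsElationGroup q O x G) :
    Nat.card (transv q x G) ≤ q ∧ Nat.card G ≤ q ^ 2 * Nat.card (transv q x G) ∧
      Nat.card G < q ^ 3 ∧ ∀ P ∈ O, P ≠ Projectivization.mk K x hx →
        ∃ Q ∈ O, Q ≠ Projectivization.mk K x hx ∧ Q ∉ orb G P := by
  obtain ⟨F, hF, hbar⟩ := exists_form (m := 2 * n + 2) hK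
  have hS := ovoid_Ov F hF hO
  have hSx : spans O x := ⟨hx, hxO⟩
  have hEl : ∀ g ∈ G, F.El x g := by
    intro g hg
    obtain ⟨h1, h2, h3⟩ := (hG g hg).1
    exact ⟨fun u v => by rw [hF, hF]; exact h1 u v, h2, fun u hu => h3 u (by rw [← hF]; exact hu)⟩
  have hGS : ∀ g ∈ G, ∀ v, spans O v → spans O (g v) := by
    rintro g hg v ⟨hv, hvO⟩
    have hgv : g v ≠ 0 := by
      intro h
      exact hv (g.map_eq_zero_iff.1 h)
    refine ⟨hgv, ?_⟩
    rw [← act_mk g v hv hgv]
    exact (hG g hg).2 _ hvO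
  have hV : Nat.card (Fin (2 * n + 2) → K) = q ^ (4 * n + 4) := by
    rw [Nat.card_fun, Nat.card_fin, hK, ← pow_mul]
    congr 1
    ring
  have hZ : Nat.card (transv q x G) = Nat.card (Ovo.HF.Zt F x G) := by
    simp only [Ovo.HF.Zt, hF]
    rfl
  rw [hZ]
  obtain ⟨z, hz, hxz⟩ := Ovo.HF.exists_z hK hbar hS hSx
  refine ⟨Ovo.HF.card_Z hK hbar hS hSx hz hxz G hEl, ?_,
    Ovo.HF.card_G_lt hK hbar hS hSx hz hxz G hEl hGS hn hV, ?_⟩
  · exact (Ovo.HF.card_G_le hS hSx hxz G hEl).trans
      (Nat.mul_le_mul_right _ (Ovo.HF.card_img hK hbar hS hSx hz hxz G hEl hGS))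
  · intro P hP hPx
    have hPz : spans O P.rep := ⟨P.rep_nonzero, by rwa [Projectivization.mk_rep]⟩
    have hxP : F.H x P.rep ≠ 0 := by
      intro h
      obtain ⟨a, ha⟩ := hS.par hSx hPz h
      apply hPx
      rw [← P.mk_rep, Projectivization.mk_eq_mk_iff']
      exact ⟨a, ha.symm⟩
    obtain ⟨z', hz'1, hz'2, hz'3⟩ := Ovo.HF.exists_far hK hbar hS hSx hPz hxP hn hV
      (Ovo.HF.img hxP G hEl) (Ovo.HF.card_img hK hbar hS hSx hPz hxP G hEl hGS)
    refine ⟨Projectivization.mk K z' hz'1.1, hz'1.2, ?_, ?_⟩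
    · intro h
      obtain ⟨a, ha⟩ := (Projectivization.mk_eq_mk_iff' K z' x _ _).1 h
      apply hxP
      apply F.sw
      rw [← hz'2, ← ha, F.smull, hS.iso x hSx, mul_zero]
    · rintro ⟨g, hg, h⟩
      have hgP : g P.rep ≠ 0 := by
        intro h
        exact P.rep_nonzero (g.map_eq_zero_iff.1 h)
      rw [← P.mk_rep, act_mk g P.rep P.rep_nonzero hgP, eq_comm,
        Projectivization.mk_eq_mk_iff'] at h
      obtain ⟨a, ha⟩ := h
      exact Ovo.HF.not_orbit hS hSx hxP G hEl hz'2 hz'3 hg a ha.symm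

end Pool.Agent.Results.MP_c6a9b1_co.ElationGroups
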