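import Pool.Agent.Ovp.Gen

/-!
MP_c6a9b1_co, ovoids of the Hermitian polar spaces `H(2n+1,q^2)`.

Let `n ≥ 2`, `O` an ovoid of `H(2n+1,q^2)`, `G` a group of semilinear similarities which preserves
`O` (they induce the collineations of the polar space) and `d` the number of field automorphisms
which occur in `G`. (1) If `p` is the prime divisor of `q` and `p^k` divides the length of an orbit
of `G` on `O`, then `p^k ≤ p^j q^(2n)` for some `p^j` dividing `d`. (2) If `G` fixes a point `X` of
`O` and is transitive on the other points of `O`, then `q = 2` or `q = 4`, and `d = q`. (3) If `G` is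
linear, then `d = 1`.
-/

namespace Pool.Agent.Results.MP_c6a9b1_co.FixedPointTransitive

open scoped LinearAlgebra.Projectivization

variable {K : Type} [Field K]

/-- The Hermitian form `x_0 y_0^q + ... + x_(m-1) y_(m-1)^q` on `K^m`. -/
def herm (q : ℕ) {m : ℕ} (x y : Fin m → K) : K := ∑ i, x i * y i ^ q

/-- Totally isotropic subspaces. -/
def IsTI (q : ℕ) {m : ℕ} (M : Submodule K (Fin m → K)) : Prop :=
  ∀ x ∈ M, ∀ y ∈ M, herm q x y = 0

/-- Generators: maximal totally isotropic subspaces. -/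
def IsGenerator (q : ℕ) {m : ℕ} (M : Submodule K (Fin m → K)) : Prop :=
  Maximal (IsTI q) M

/-- An ovoid: a set of points of the polar space such that every generator contains exactly one
of its points. -/
def IsOvoid (q : ℕ) {m : ℕ} (O : Set (ℙ K (Fin m → K))) : Prop :=
  (∀ P ∈ O, IsTI q P.submodule) ∧
    ∀ M : Submodule K (Fin m → K), IsGenerator q M → ∃! P : ℙ K (Fin m → K), P ∈ O ∧ P.submodule ≤ M

/-- Semilinear similarities of the Hermitian form: they induce the collineations of the polar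
space. -/
def IsSemi (q : ℕ) {m : ℕ} (g : Equiv.Perm (Fin m → K)) : Prop :=
  ∃ (σ : K ≃+* K) (c : K), c ≠ 0 ∧ (∀ u v, g (u + v) = g u + g v) ∧
    (∀ (a : K) (u : Fin m → K), g (a • u) = σ a • g u) ∧
    ∀ u v, herm q (g u) (g v) = c * σ (herm q u v)

/-- `g` maps the point `P` to the point `Q`. -/
def Maps {m : ℕ} (g : Equiv.Perm (Fin m → K)) (P Q : ℙ K (Fin m → K)) : Prop :=
  g '' (P.submodule : Set (Fin m → K)) = (Q.submodule : Set (Fin m → K))

/-- The orbit of a point. -/
def orb {m : ℕ} (G : Subgroup (Equiv.Perm (Fin m → K))) (P : ℙ K (Fin m → K)) :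
    Set (ℙ K (Fin m → K)) :=
  {Q | ∃ g ∈ G, Maps g P Q}

/-- The field automorphisms which occur in `G`. -/
def fieldAuts {m : ℕ} (G : Subgroup (Equiv.Perm (Fin m → K))) : Set (K ≃+* K) :=
  {σ | ∃ g ∈ G, ∀ (a : K) (u : Fin m → K), g (a • u) = σ a • g u}

section bridge

variable [Finite K] {q m : ℕ}

/-- The form as an abstract Hermitian form. -/
theorem exists_form (hK : Nat.card K = q ^ 2) :
    ∃ F : Ovo.HF K (Fin m → K), (∀ x y, F.H x y = herm q x y) ∧ ∀ a, F.bar a = a ^ q := by
  obtain ⟨bar, hb1, hb2⟩ := Ovo.exists_bar hK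
  have hq := Ovo.two_le_q hK
  refine ⟨{ bar := bar, bb := hb2, H := herm q, addl := ?_, smull := ?_, symm := ?_, nd := ?_ },
    fun x y => rfl, hb1⟩
  · intro u v w
    simp only [herm, Pi.add_apply, add_mul, Finset.sum_add_distrib]
  · intro a u w
    simp only [herm, Pi.smul_apply, smul_eq_mul, Finset.mul_sum, mul_assoc]
  · intro u v
    simp only [herm, map_sum, map_mul]
    refine Finset.sum_congr rfl (fun i _ => ?_)
    rw [map_pow, hb1 (u i), ← hb1 (bar (v i)), hb2, mul_comm]
  · intro u hu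
    funext i
    classical
    have h1 := hu (Pi.single i 1)
    simp only [herm] at h1
    rw [Finset.sum_eq_single i] at h1
    · have h2 : u i ^ q = 0 := by simpa using h1
      exact eq_zero_of_pow_eq_zero h2
    · intro j _ hj
      rw [Pi.single_eq_of_ne hj, zero_mul]
    · intro h
      exact absurd (Finset.mem_univ i) h

/-- The nonzero vectors spanning the points of `O`. -/
def spans (O : Set (ℙ K (Fin m → K))) (v : Fin m → K) : Prop :=
  ∃ h : v ≠ 0, Projectivization.mk K v h ∈ O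

omit [Finite K] in
theorem TI_eq (F : Ovo.HF K (Fin m → K)) (hF : ∀ x y, F.H x y = herm q x y) :
    F.TI = IsTI q := by
  funext M
  simp only [Ovo.HF.TI, IsTI, hF]

omit [Finite K] in
theorem ovoid_Ov (F : Ovo.HF K (Fin m → K)) (hF : ∀ x y, F.H x y = herm q x y)
    {O : Set (ℙ K (Fin m → K))} (hO : IsOvoid q O) : F.Ov (spans O) where
  ne := fun v hv => hv.1
  iso := by
    rintro v ⟨hv, hvO⟩
    rw [hF]
    apply hO.1 _ hvO
    · rw [Projectivization.submodule_mk]
      exact Submodule.mem_span_singleton_self v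
    · rw [Projectivization.submodule_mk]
      exact Submodule.mem_span_singleton_self v
  sm := by
    rintro a v ha ⟨hv, hvO⟩
    refine ⟨smul_ne_zero ha hv, ?_⟩
    have h1 : Projectivization.mk K (a • v) (smul_ne_zero ha hv) = Projectivization.mk K v hv := by
      rw [Projectivization.mk_eq_mk_iff']
      exact ⟨a, rfl⟩
    rw [h1]
    exact hvO
  ex := by
    intro M hM
    rw [TI_eq F hF] at hM
    obtain ⟨P, ⟨hP1, hP2⟩, _⟩ := hO.2 M hM
    refine ⟨P.rep, hP2 ?_, P.rep_nonzero, by rwa [Projectivization.mk_rep]⟩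
    rw [Projectivization.submodule_eq]
    exact Submodule.mem_span_singleton_self _
  uniq := by
    rintro M hM v hv w hw ⟨hv0, hvO⟩ ⟨hw0, hwO⟩
    rw [TI_eq F hF] at hM
    have h1 := (hO.2 M hM).unique (y₁ := Projectivization.mk K v hv0)
      (y₂ := Projectivization.mk K w hw0)
      ⟨hvO, by rwa [Projectivization.submodule_mk, Submodule.span_singleton_le_iff_mem]⟩
      ⟨hwO, by rwa [Projectivization.submodule_mk, Submodule.span_singleton_le_iff_mem]⟩
    obtain ⟨a, ha⟩ := (Projectivization.mk_eq_mk_iff' K w v hw0 hv0).1 h1.symm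
    exact ⟨a, ha.symm⟩

end bridge

/-- A prime dividing `q` is the characteristic. -/
theorem char_eq {K : Type} [Field K] [Finite K] {q p : ℕ} (hK : Nat.card K = q ^ 2)
    (hp : p.Prime) (hpq : p ∣ q) : CharP K p := by
  classical
  have i0 : Fintype K := Fintype.ofFinite K
  obtain ⟨r, hr⟩ := CharP.exists K
  have hrp : r.Prime := CharP.char_is_prime K r
  obtain ⟨l, _, hm⟩ := FiniteField.card K r
  rw [← Nat.card_eq_fintype_card, hK] at hm
  have h5 : p ∣ r ^ (l : ℕ) := by
    rw [← hm]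
    exact hpq.trans (dvd_pow_self q (by norm_num))
  have h6 : p = r := (Nat.prime_dvd_prime_iff_eq hp hrp).1 (hp.dvd_of_dvd_pow h5)
  subst h6
  exact hr

/-- Let `n ≥ 2`, `K` the field with `q^2` elements, `O` an ovoid of `H(2n+1,q^2)` and `G` a group of
semilinear similarities of the Hermitian form each of which maps `O` into `O`. Let `d` be the number
of field automorphisms which occur in `G`.
(1) If `p` is the prime divisor of `q` and `p^k` divides the length of the orbit under `G` of a point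
of `O`, then `p^k ≤ p^j q^(2n)` for some `p^j` which divides `d`.
(2) If `G` fixes a point `X` of `O` and is transitive on the points of `O` other than `X`, then
`q = 2` or `q = 4`, and `d = q`.
(3) If the elements of `G` are linear, then `d = 1`. -/
theorem result (n q : ℕ) (hn : 2 ≤ n) (K : Type) [Field K] [Finite K] (hK : Nat.card K = q ^ 2)
    (O : Set (ℙ K (Fin (2 * n + 2) → K))) (hO : IsOvoid q O)
    (G : Subgroup (Equiv.Perm (Fin (2 * n + 2) → K)))
    (hG : ∀ g ∈ G, IsSemi q g ∧ ∀ P ∈ O, ∃ Q ∈ O, Maps g P Q) :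
    (∀ P ∈ O, ∀ p k : ℕ, p.Prime → p ∣ q → p ^ k ∣ Nat.card (orb G P) →
      ∃ j, p ^ j ∣ Nat.card (fieldAuts G) ∧ p ^ k ≤ p ^ j * q ^ (2 * n)) ∧
    (∀ X ∈ O, (∀ g ∈ G, Maps g X X) →
      (∀ P ∈ O, ∀ Q ∈ O, P ≠ X → Q ≠ X → ∃ g ∈ G, Maps g P Q) →
      (q = 2 ∨ q = 4) ∧ Nat.card (fieldAuts G) = q) ∧
    ((∀ g ∈ G, ∀ (a : K) (u : Fin (2 * n + 2) → K), g (a • u) = a • g u) →
      Nat.card (fieldAuts G) = 1) := by
  obtain ⟨F, hF, hbar⟩ := exists_form (m := 2 * n + 2) hK
  have hS := ovoid_Ov F hF hO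
  have hfr : Module.finrank K (Fin (2 * n + 2) → K) = 2 * n + 2 := by simp
  have hsub : ∀ w : Fin (2 * n + 2) → K, ∀ hw : w ≠ 0, ∀ v,
      v ∈ ((Projectivization.mk K w hw).submodule : Set (Fin (2 * n + 2) → K)) ↔
        ∃ a : K, a • w = v := by
    intro w hw v
    rw [Projectivization.submodule_mk, SetLike.mem_coe, Submodule.mem_span_singleton]
  have hzero : ∀ g ∈ G, g 0 = 0 := by
    intro g hg
    obtain ⟨⟨σ, c, hc, h5, h6, h7⟩, _⟩ := hG g hg
    have h8 := h5 0 0
    rw [add_zero] at h8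
    exact left_eq_add.1 h8
  have hne0 : ∀ g ∈ G, ∀ v, v ≠ 0 → g v ≠ 0 := by
    intro g hg v hv h
    exact hv (g.injective (h.trans (hzero g hg).symm))
  have b1 : ∀ g ∈ G, Ovp.Col.Sem F g := by
    intro g hg
    obtain ⟨⟨σ, c, hc, h5, h6, h7⟩, _⟩ := hG g hg
    refine ⟨σ, c, hc, h5, h6, fun u v => ?_⟩
    rw [hF, hF]
    exact h7 u v
  have b2 : ∀ g ∈ G, ∀ y, spans O y → spans O (g y) := by
    rintro g hg y ⟨hy, hyO⟩
    obtain ⟨_, h5⟩ := hG g hg
    obtain ⟨Q, hQ, hQ2⟩ := h5 _ hyO
    have h6 : g y ∈ (Q.submodule : Set (Fin (2 * n + 2) → K)) := by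
      rw [← hQ2]
      exact ⟨y, (hsub y hy y).2 ⟨1, one_smul K y⟩, rfl⟩
    rw [← Q.mk_rep, hsub] at h6
    obtain ⟨a, ha⟩ := h6
    refine ⟨hne0 g hg y hy, ?_⟩
    have h7 : Projectivization.mk K (g y) (hne0 g hg y hy) = Q := by
      rw [← Q.mk_rep, Projectivization.mk_eq_mk_iff']
      exact ⟨a, ha⟩
    rw [h7]
    exact hQ
  refine ⟨?_, ?_, ?_⟩
  · intro P hP p k hp hpq hdiv
    have : Fact p.Prime := ⟨hp⟩
    have := char_eq hK hp hpq
    have hPz : spans O P.rep := ⟨P.rep_nonzero, by rwa [Projectivization.mk_rep]⟩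
    refine Ovp.Gen.htwo0 hn hK hbar hfr hS G b1 b2 hPz (k := k) ?_
    have h1 : Nat.card (orb G P) = Nat.card {T : Set (Fin (2 * n + 2) → K) // ∃ g ∈ G,
        g '' ((Submodule.span K {P.rep} : Submodule K (Fin (2 * n + 2) → K)) :
          Set (Fin (2 * n + 2) → K)) = T} := by
      rw [← Projectivization.submodule_eq]
      refine Nat.card_congr (Equiv.ofBijective (fun Q : orb G P =>
        ⟨(Q.1.submodule : Set (Fin (2 * n + 2) → K)), Q.2⟩) ⟨?_, ?_⟩)
      · intro Q Q' h
        have h2 : (Q.1.submodule : Set (Fin (2 * n + 2) → K)) = Q'.1.submodule :=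
          congrArg Subtype.val h
        exact Subtype.ext (Projectivization.submodule_injective (SetLike.coe_injective h2))
      · rintro ⟨T, g, hg, hT⟩
        obtain ⟨Q, _, hQ⟩ := (hG g hg).2 P hP
        refine ⟨⟨Q, g, hg, hQ⟩, ?_⟩
        apply Subtype.ext
        show (Q.submodule : Set (Fin (2 * n + 2) → K)) = T
        rw [← hT]
        exact hQ.symm
    rw [← h1]
    exact hdiv
  · intro X hX hX2 htr
    have hSx : spans O X.rep := ⟨X.rep_nonzero, by rwa [Projectivization.mk_rep]⟩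
    have key : ∀ v, ∀ hv : v ≠ 0, F.H v X.rep ≠ 0 → Projectivization.mk K v hv ≠ X := by
      intro v hv h h3
      rw [← X.mk_rep, Projectivization.mk_eq_mk_iff'] at h3
      obtain ⟨a, ha⟩ := h3
      apply h
      rw [← ha, F.smull, hS.iso _ hSx, mul_zero]
    have b3 : ∀ g ∈ G, ∃ a : K, g X.rep = a • X.rep := by
      intro g hg
      have h5 := hX2 g hg
      have h6 : g X.rep ∈ (X.submodule : Set (Fin (2 * n + 2) → K)) := by
        rw [← h5]
        refine ⟨X.rep, ?_, rfl⟩
        rw [Projectivization.submodule_eq]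
        exact Submodule.mem_span_singleton_self _
      rw [← X.mk_rep, hsub] at h6
      obtain ⟨a, ha⟩ := h6
      rw [Projectivization.mk_rep] at ha
      exact ⟨a, ha.symm⟩
    refine Ovp.Len.hone hn hK hbar hfr hS hSx G b1 b2 b3 ?_
    rintro y y' ⟨hy, hyO⟩ ⟨hy', hyO'⟩ h5 h6
    obtain ⟨g, hg, h7⟩ := htr _ hyO _ hyO' (key y hy h5) (key y' hy' h6)
    have h8 : g y ∈ ((Projectivization.mk K y' hy').submodule :
        Set (Fin (2 * n + 2) → K)) := by
      rw [← h7]
      exact ⟨y, (hsub y hy y).2 ⟨1, one_smul K y⟩, rfl⟩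
    rw [hsub] at h8
    obtain ⟨a, ha⟩ := h8
    exact ⟨g, hg, a, ha.symm⟩
  · intro hlin
    have he : (fun _ : Fin (2 * n + 2) => (1 : K)) ≠ 0 := fun h =>
      one_ne_zero (congrFun h ⟨0, by omega⟩)
    have h1 : fieldAuts G = {RingEquiv.refl K} := by
      ext σ
      constructor
      · rintro ⟨g, hg, h⟩
        rw [Set.mem_singleton_iff]
        ext a
        have h2 : (σ a - a) • g (fun _ : Fin (2 * n + 2) => (1 : K)) = 0 := by
          rw [sub_smul, ← h, ← hlin g hg, sub_self]
        rcases smul_eq_zero.1 h2 with h3 | h3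
        · exact sub_eq_zero.1 h3
        · exact absurd h3 (hne0 g hg _ he)
      · rintro rfl
        exact ⟨1, G.one_mem, fun a u => rfl⟩
    rw [h1]
    simp

end Pool.Agent.Results.MP_c6a9b1_co.FixedPointTransitive
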