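import Pool.Agent.Rov.Geo
import Pool.Agent.Rov.Ovs
import Pool.Agent.Rov.Dlt

/-!
MP_c6a9b1_co, ovoids of the Hermitian polar spaces `H(2n+1,q^2)`.

Transvection orbits and hyperbolic lines through a singular point `x` which have more than half of
their points in a partial ovoid.
-/

namespace Pool.Agent.Results.MP_c6a9b1_co.RichOrbits

open scoped LinearAlgebra.Projectivization

variable {K : Type} [Field K]

/-- The Hermitian form `x_0 y_0^q + ... + x_(m-1) y_(m-1)^q` on `K^m`. -/
def herm (q : ℕ) {m : ℕ} (x y : Fin m → K) : K := ∑ i, x i * y i ^ q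

/-- Totally isotropic subspaces. -/
def IsTI (q : ℕ) {m : ℕ} (M : Submodule K (Fin m → K)) : Prop :=
  ∀ x ∈ M, ∀ y ∈ M, herm q x y = 0

/-- Generators: maximal totally isotropic subspaces. -/
def IsGenerator (q : ℕ) {m : ℕ} (M : Submodule K (Fin m → K)) : Prop :=
  Maximal (IsTI q) M

/-- An ovoid: a set of points of the polar space such that every generator contains exactly one
of its points. -/
def IsOvoid (q : ℕ) {m : ℕ} (O : Set (ℙ K (Fin m → K))) : Prop :=
  (∀ P ∈ O, IsTI q P.submodule) ∧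
    ∀ M : Submodule K (Fin m → K), IsGenerator q M → ∃! P : ℙ K (Fin m → K), P ∈ O ∧ P.submodule ≤ M

/-- A partial ovoid: a set of points of the polar space with at most one point in every
generator. -/
def IsPartialOvoid (q : ℕ) {m : ℕ} (O : Set (ℙ K (Fin m → K))) : Prop :=
  (∀ P ∈ O, IsTI q P.submodule) ∧
    ∀ M : Submodule K (Fin m → K), IsGenerator q M →
      ∀ P ∈ O, ∀ Q ∈ O, P.submodule ≤ M → Q.submodule ≤ M → P = Q

/-- `g` is the map `u ↦ u + t · herm(u,x) · x`. For `x` singular and `t + t^q = 0` these are the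
transvections with centre `x`. -/
def IsTransvection (q : ℕ) {m : ℕ} (x : Fin m → K) (t : K)
    (g : (Fin m → K) ≃ₗ[K] (Fin m → K)) : Prop :=
  ∀ u, g u = u + (t * herm q u x) • x

/-- The image of a point under a linear automorphism. -/
def act {m : ℕ} (g : (Fin m → K) ≃ₗ[K] (Fin m → K)) (P : ℙ K (Fin m → K)) : ℙ K (Fin m → K) :=
  P.map g.toLinearMap g.injective

/-- The images of `P` under the transvections with centre `x` and parameter in `T`. -/
def orb (q : ℕ) {m : ℕ} (x : Fin m → K) (T : AddSubgroup K) (P : ℙ K (Fin m → K)) :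
    Set (ℙ K (Fin m → K)) :=
  {Q | ∃ t ∈ T, ∃ g, IsTransvection q x t g ∧ act g P = Q}

/-- The point `P` is not in the hyperplane perpendicular to `x`. -/
def Far (q : ℕ) {m : ℕ} (x : Fin m → K) (P : ℙ K (Fin m → K)) : Prop :=
  ∃ u ∈ P.submodule, herm q u x ≠ 0

/-- `x` spans a singular point. -/
def IsSingular (q : ℕ) {m : ℕ} (x : Fin m → K) : Prop := x ≠ 0 ∧ herm q x x = 0

/-- Groups of parameters `t` with `t + t^q = 0`: for a singular `x` these are the groups of
transvections with centre `x`. -/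
def IsTr (q : ℕ) (T : AddSubgroup K) : Prop := ∀ t ∈ T, t + t ^ q = 0

/-- The orbits of `T` on the points not perpendicular to `x` which have more than half of their
points in `O`. -/
def richOrbits (q : ℕ) {m : ℕ} (x : Fin m → K) (T : AddSubgroup K) (O : Set (ℙ K (Fin m → K))) :
    Set (Set (ℙ K (Fin m → K))) :=
  {B | ∃ P, Far q x P ∧ B = orb q x T P ∧ Nat.card T < 2 * Nat.card ↥(B ∩ O)}

/-- The hyperbolic lines through `x` (the lines through `x` not contained in the hyperplane
perpendicular to `x`) which have more than `q/2` points of `O` other than `x`. -/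
def richLines (q : ℕ) {m : ℕ} (x : Fin m → K) (O : Set (ℙ K (Fin m → K))) :
    Set (Submodule K (Fin m → K)) :=
  {L | Module.finrank K L = 2 ∧ x ∈ L ∧ (∃ u ∈ L, herm q u x ≠ 0) ∧
    q < 2 * Nat.card {P : ℙ K (Fin m → K) // P ∈ O ∧ P.submodule ≤ L ∧ x ∉ P.submodule}}

/-- `x` spans a point of `O` and the transvections with centre `x` and parameter in `T` map `O` into
`O`. -/
def Preserves (q : ℕ) {m : ℕ} (x : Fin m → K) (T : AddSubgroup K) (O : Set (ℙ K (Fin m → K))) :
    Prop :=
  x ≠ 0 ∧ (∃ P ∈ O, x ∈ P.submodule) ∧ ∀ P ∈ O, orb q x T P ⊆ O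

/-- `C(4n+p-1,p-1) + C(4n+p-2,p-2)`. -/
def cst (n p : ℕ) : ℕ := (4 * n + p - 1).choose (p - 1) + (4 * n + p - 2).choose (p - 2)

/-- `(C(4n+p-1,p-1) + C(4n+p-2,p-2))^h · C((2n+1)h+(p-1)r,(p-1)r)`. -/
def bound (n p h r : ℕ) : ℕ :=
  cst n p ^ h * ((2 * n + 1) * h + (p - 1) * r).choose ((p - 1) * r)

section bridge

variable [Finite K] {q m : ℕ}

/-- The form as an abstract Hermitian form. -/
theorem exists_form (hK : Nat.card K = q ^ 2) :
    ∃ F : Ovo.HF K (Fin m → K), (∀ x y, F.H x y = herm q x y) ∧ ∀ a, F.bar a = a ^ q := by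
  obtain ⟨bar, hb1, hb2⟩ := Ovo.exists_bar hK
  have hq := Ovo.two_le_q hK
  refine ⟨{ bar := bar, bb := hb2, H := herm q, addl := ?_, smull := ?_, symm := ?_, nd := ?_ },
    fun x y => rfl, hb1⟩
  · intro u v w
    simp only [herm, Pi.add_apply, add_mul, Finset.sum_add_distrib]
  · intro a u w
    simp only [herm, Pi.smul_apply, smul_eq_mul, Finset.mul_sum, mul_assoc]
  · intro u v
    simp only [herm, map_sum, map_mul]
    refine Finset.sum_congr rfl (fun i _ => ?_)
    rw [map_pow, hb1 (u i), ← hb1 (bar (v i)), hb2, mul_comm]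
  · intro u hu
    funext i
    classical
    have h1 := hu (Pi.single i 1)
    simp only [herm] at h1
    rw [Finset.sum_eq_single i] at h1
    · have h2 : u i ^ q = 0 := by simpa using h1
      exact eq_zero_of_pow_eq_zero h2
    · intro j _ hj
      rw [Pi.single_eq_of_ne hj, zero_mul]
    · intro h
      exact absurd (Finset.mem_univ i) h

/-- The nonzero vectors spanning the points of `O`. -/
def spans (O : Set (ℙ K (Fin m → K))) (v : Fin m → K) : Prop :=
  ∃ h : v ≠ 0, Projectivization.mk K v h ∈ O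

omit [Finite K] in
theorem TI_eq (F : Ovo.HF K (Fin m → K)) (hF : ∀ x y, F.H x y = herm q x y) :
    F.TI = IsTI q := by
  funext M
  simp only [Ovo.HF.TI, IsTI, hF]

omit [Finite K] in
theorem act_mk (g : (Fin m → K) ≃ₗ[K] (Fin m → K)) (v : Fin m → K) (hv : v ≠ 0) (hgv : g v ≠ 0) :
    act g (Projectivization.mk K v hv) = Projectivization.mk K (g v) hgv := by
  rw [act, Projectivization.map_mk]
  rfl

omit [Finite K] in
theorem iso (F : Ovo.HF K (Fin m → K)) (hF : ∀ x y, F.H x y = herm q x y)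
    {O : Set (ℙ K (Fin m → K))} (hO : IsPartialOvoid q O) (v : Fin m → K) (hv : spans O v) :
    F.H v v = 0 := by
  obtain ⟨hv, hvO⟩ := hv
  rw [hF]
  apply hO.1 _ hvO
  · rw [Projectivization.submodule_mk]
    exact Submodule.mem_span_singleton_self v
  · rw [Projectivization.submodule_mk]
    exact Submodule.mem_span_singleton_self v

theorem par (F : Ovo.HF K (Fin m → K)) (hF : ∀ x y, F.H x y = herm q x y)
    {O : Set (ℙ K (Fin m → K))} (hO : IsPartialOvoid q O) (v w : Fin m → K) (hv : spans O v)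
    (hw : spans O w) (h : F.H v w = 0) : ∃ a : K, w = a • v := by
  have h1 := F.TI_pair (iso F hF hO v hv) (iso F hF hO w hw) h
  obtain ⟨M, hM1, hM2⟩ := F.exists_max h1
  obtain ⟨hv0, hvO⟩ := hv
  obtain ⟨hw0, hwO⟩ := hw
  rw [TI_eq F hF] at hM2
  have h2 := hO.2 M hM2 _ hwO _ hvO
    (by rw [Projectivization.submodule_mk]; exact le_sup_right.trans hM1)
    (by rw [Projectivization.submodule_mk]; exact le_sup_left.trans hM1)
  obtain ⟨a, ha⟩ := (Projectivization.mk_eq_mk_iff' K w v hw0 hv0).1 h2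
  exact ⟨a, ha.symm⟩

omit [Finite K] in
theorem ne_zero_of (F : Ovo.HF K (Fin m → K)) {x w : Fin m → K} (hw : F.H w x = 1) : w ≠ 0 := by
  rintro rfl
  rw [F.zerol] at hw
  exact zero_ne_one hw

omit [Finite K] in
theorem shift_one (F : Ovo.HF K (Fin m → K)) {x w : Fin m → K} (hxx : F.H x x = 0)
    (hw : F.H w x = 1) (t : K) : F.H (w + t • x) x = 1 := by
  rw [F.addl, F.smull, hxx, mul_zero, add_zero, hw]

omit [Finite K] in
theorem far_vec (F : Ovo.HF K (Fin m → K)) (hF : ∀ x y, F.H x y = herm q x y) {x : Fin m → K}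
    {P : ℙ K (Fin m → K)} (hP : Far q x P) :
    ∃ w, ∃ hw : F.H w x = 1, Projectivization.mk K w (ne_zero_of F hw) = P := by
  obtain ⟨u, hu, hux⟩ := hP
  rw [← hF] at hux
  have hw : F.H ((F.H u x)⁻¹ • u) x = 1 := by
    rw [F.smull, inv_mul_cancel₀ hux]
  refine ⟨(F.H u x)⁻¹ • u, hw, ?_⟩
  have hu0 : u ≠ 0 := by
    rintro rfl
    exact hux (F.zerol x)
  rw [Projectivization.submodule_eq, Submodule.mem_span_singleton] at hu
  obtain ⟨a, ha⟩ := hu
  rw [← Projectivization.mk_rep P, Projectivization.mk_eq_mk_iff']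
  exact ⟨(F.H u x)⁻¹ * a, by rw [mul_smul, ha]⟩

omit [Finite K] in
theorem mem_orb (F : Ovo.HF K (Fin m → K)) (hF : ∀ x y, F.H x y = herm q x y) {x : Fin m → K}
    (hxx : F.H x x = 0) (T : AddSubgroup K) {w : Fin m → K} (hw : F.H w x = 1)
    (Q : ℙ K (Fin m → K)) : Q ∈ orb q x T (Projectivization.mk K w (ne_zero_of F hw)) ↔
      ∃ t ∈ T, Projectivization.mk K (w + t • x) (ne_zero_of F (shift_one F hxx hw t)) = Q := by
  constructor
  · rintro ⟨t, ht, g, hg, rfl⟩
    refine ⟨t, ht, ?_⟩
    have h1 : g w = w + t • x := by rw [hg w, ← hF, hw, mul_one]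
    rw [act_mk g w (ne_zero_of F hw) (by rw [h1]; exact ne_zero_of F (shift_one F hxx hw t))]
    congr 1
    exact h1.symm
  · rintro ⟨t, ht, rfl⟩
    have hshift : ∀ (s : K) (u : Fin m → K), F.H (u + (s * F.H u x) • x) x = F.H u x := by
      intro s u
      rw [F.addl, F.smull, hxx, mul_zero, add_zero]
    have hinv : ∀ (s : K) (u : Fin m → K),
        (u + (s * F.H u x) • x) + (-s * F.H (u + (s * F.H u x) • x) x) • x = u := by
      intro s u
      rw [hshift, add_assoc, ← add_smul]
      rw [show s * F.H u x + -s * F.H u x = 0 by ring, zero_smul, add_zero]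
    let g : (Fin m → K) ≃ₗ[K] (Fin m → K) :=
      { toFun := fun u => u + (t * F.H u x) • x
        map_add' := by
          intro u v
          rw [F.addl, mul_add, add_smul]
          abel
        map_smul' := by
          intro a u
          rw [F.smull, RingHom.id_apply, smul_add, smul_smul]
          congr 2
          ring
        invFun := fun u => u + (-t * F.H u x) • x
        left_inv := fun u => hinv t u
        right_inv := fun u => by
          have := hinv (-t) u
          rwa [neg_neg] at this }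
    have hg : ∀ u, g u = u + (t * F.H u x) • x := fun u => rfl
    refine ⟨t, ht, g, fun u => by rw [hg, hF], ?_⟩
    have h1 : g w = w + t • x := by rw [hg w, hw, mul_one]
    rw [act_mk g w (ne_zero_of F hw) (by rw [h1]; exact ne_zero_of F (shift_one F hxx hw t))]
    congr 1

omit [Finite K] in
theorem orb_shift (F : Ovo.HF K (Fin m → K)) (hF : ∀ x y, F.H x y = herm q x y) {x : Fin m → K}
    (hxx : F.H x x = 0) (T : AddSubgroup K) {w : Fin m → K} (hw : F.H w x = 1) {t : K}
    (ht : t ∈ T) :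
    orb q x T (Projectivization.mk K (w + t • x) (ne_zero_of F (shift_one F hxx hw t))) =
      orb q x T (Projectivization.mk K w (ne_zero_of F hw)) := by
  ext Q
  rw [mem_orb F hF hxx T hw, mem_orb F hF hxx T (shift_one F hxx hw t)]
  constructor
  · rintro ⟨s, hs, rfl⟩
    refine ⟨t + s, T.add_mem ht hs, ?_⟩
    congr 1
    rw [add_smul, add_assoc]
  · rintro ⟨s, hs, rfl⟩
    refine ⟨s - t, T.sub_mem hs ht, ?_⟩
    congr 1
    rw [sub_smul]
    abel

omit [Finite K] in
theorem shift_inj (F : Ovo.HF K (Fin m → K)) {x : Fin m → K} (hx : x ≠ 0)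
    (hxx : F.H x x = 0) {w : Fin m → K} (hw : F.H w x = 1) {t t' : K}
    (h : Projectivization.mk K (w + t • x) (ne_zero_of F (shift_one F hxx hw t)) =
      Projectivization.mk K (w + t' • x) (ne_zero_of F (shift_one F hxx hw t'))) : t = t' := by
  obtain ⟨a, ha⟩ := (Projectivization.mk_eq_mk_iff' K _ _ _ _).1 h
  have h1 : F.H (a • (w + t' • x)) x = 1 := by rw [ha, shift_one F hxx hw]
  rw [F.smull, shift_one F hxx hw, mul_one] at h1
  rw [h1, one_smul] at ha
  have h2 : (t' - t) • x = 0 := by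
    rw [sub_smul, sub_eq_zero]
    exact add_left_cancel ha
  rcases smul_eq_zero.1 h2 with h3 | h3
  · exact (sub_eq_zero.1 h3).symm
  · exact absurd h3 hx

end bridge

theorem char_of_card [Finite K] {p h : ℕ} (hp : p.Prime) (hK : Nat.card K = (p ^ h) ^ 2) :
    CharP K p := by
  classical
  have i0 : Fintype K := Fintype.ofFinite K
  obtain ⟨p', hp'⟩ := CharP.exists K
  obtain ⟨k, hk1, hk2⟩ := FiniteField.card K p'
  rw [← Nat.card_eq_fintype_card, hK, ← pow_mul] at hk2
  have h1 : p' ∣ p ^ (h * 2) := by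
    rw [hk2]
    exact dvd_pow_self p' k.pos.ne'
  have h2 : p' = p := (Nat.prime_dvd_prime_iff_eq hk1 hp).1 (hk1.dvd_of_dvd_pow h1)
  rwa [h2] at hp'

theorem bound_eq (p h n r : ℕ) (hp : p.Prime) :
    (Nat.multichoose (2 * (2 * n + 2 - 2) + 1) (p - 1) +
        Nat.multichoose (2 * (2 * n + 2 - 2) + 1) (p - 2)) ^ h *
      Nat.multichoose (h * (2 * n + 2 - 1) + 1) ((p - 1) * r) = bound n p h r := by
  have h2 := hp.two_le
  rw [Nat.multichoose_eq, Nat.multichoose_eq, Nat.multichoose_eq, bound, cst]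
  rw [show 2 * (2 * n + 2 - 2) + 1 + (p - 1) - 1 = 4 * n + p - 1 by omega,
    show 2 * (2 * n + 2 - 2) + 1 + (p - 2) - 1 = 4 * n + p - 2 by omega,
    show h * (2 * n + 2 - 1) + 1 + (p - 1) * r - 1 = (2 * n + 1) * h + (p - 1) * r by
      rw [show 2 * n + 2 - 1 = 2 * n + 1 by omega, mul_comm h]; omega]

/-- A family of rich objects, indexed by a finite type, each with a normalised vector. -/
theorem family_le [Finite K] {p h n r : ℕ} (hp : p.Prime) (hK : Nat.card K = (p ^ h) ^ 2)
    (F : Ovo.HF K (Fin (2 * n + 2) → K)) (hF : ∀ x y, F.H x y = herm (p ^ h) x y)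
    (hb : ∀ a, F.bar a = a ^ p ^ h) (O : Set (ℙ K (Fin (2 * n + 2) → K)))
    (hO : IsPartialOvoid (p ^ h) O) (x : Fin (2 * n + 2) → K) (hxx : F.H x x = 0)
    (T : AddSubgroup K) (hT : ∀ t ∈ T, t + t ^ p ^ h = 0) (hTc : Nat.card T * p ^ r = p ^ h)
    {R : Type} [Finite R] (w : R → (Fin (2 * n + 2) → K)) (hw : ∀ i, F.H (w i) x = 1)
    (hinj : ∀ i j, ∀ t ∈ T, w j = w i + t • x → i = j)
    (hrich : ∀ i, Nat.card T < 2 * Nat.card {t : K // t ∈ T ∧ spans O (w i + t • x)}) :
    Nat.card R ≤ bound n p h r := by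
  classical
  have i0 : Fact p.Prime := ⟨hp⟩
  have i1 : CharP K p := char_of_card hp hK
  have i2 : Fintype R := Fintype.ofFinite R
  have hwi : Function.Injective w := by
    intro i j hij
    exact hinj i j 0 T.zero_mem (by rw [zero_smul, add_zero, hij])
  have h1 := Rov.rich_le F p h r hb hK (spans O) (iso F hF hO) (par F hF hO) x hxx T hT hTc
    (Finset.univ.image w) ?_ ?_ ?_
  · rw [Finset.card_image_of_injective _ hwi, Finset.card_univ, Module.finrank_fin_fun,
      bound_eq p h n r hp, ← Nat.card_eq_fintype_card] at h1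
    exact h1
  · intro v hv
    obtain ⟨i, _, rfl⟩ := Finset.mem_image.1 hv
    exact hw i
  · intro v hv v' hv' t ht hvv
    obtain ⟨i, _, rfl⟩ := Finset.mem_image.1 hv
    obtain ⟨j, _, rfl⟩ := Finset.mem_image.1 hv'
    rw [hinj i j t ht hvv]
  · intro v hv
    obtain ⟨i, _, rfl⟩ := Finset.mem_image.1 hv
    exact hrich i

/-- The bounds for partial ovoids. -/
theorem main_bounds (p h n r : ℕ) (hp : p.Prime) {K : Type} [Field K] (hK : Nat.card K = (p ^ h) ^ 2)
    (O : Set (ℙ K (Fin (2 * n + 2) → K))) (hO : IsPartialOvoid (p ^ h) O)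
    (x : Fin (2 * n + 2) → K) (hx : x ≠ 0) (hxx : herm (p ^ h) x x = 0)
    (T : AddSubgroup K) (hT : ∀ t ∈ T, t + t ^ p ^ h = 0) (hTc : Nat.card T * p ^ r = p ^ h) :
    (Nat.card {B : Set (ℙ K (Fin (2 * n + 2) → K)) // ∃ P, Far (p ^ h) x P ∧
        B = orb (p ^ h) x T P ∧ Nat.card T < 2 * Nat.card ↥(B ∩ O)} ≤ bound n p h r) ∧
    ((∀ P ∈ O, orb (p ^ h) x T P ⊆ O) →
      Nat.card {P // P ∈ O ∧ Far (p ^ h) x P} ≤ Nat.card T * bound n p h r) ∧
    ((∀ P ∈ O, orb (p ^ h) x T P ⊆ O) → (∃ P ∈ O, x ∈ P.submodule) →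
      Nat.card O ≤ 1 + Nat.card T * bound n p h r) ∧
    Nat.card {L : Submodule K (Fin (2 * n + 2) → K) // Module.finrank K L = 2 ∧ x ∈ L ∧
        (∃ u ∈ L, herm (p ^ h) u x ≠ 0) ∧
        p ^ h < 2 * Nat.card {P : ℙ K (Fin (2 * n + 2) → K) //
          P ∈ O ∧ P.submodule ≤ L ∧ x ∉ P.submodule}} ≤ bound n p h 0 := by
  classical
  have i0 : Finite K := Nat.finite_of_card_ne_zero (by
    rw [hK]
    exact pow_ne_zero _ (pow_ne_zero _ hp.ne_zero))
  have i3 : Finite (ℙ K (Fin (2 * n + 2) → K)) := inferInstance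
  obtain ⟨F, hF, hb⟩ := exists_form (m := 2 * n + 2) hK
  have hxx' : F.H x x = 0 := by rw [hF]; exact hxx
  have hone : ∀ (w : Fin (2 * n + 2) → K) (hw : F.H w x = 1),
      Nat.card ↥(orb (p ^ h) x T (Projectivization.mk K w (ne_zero_of F hw)) ∩ O) ≤
        Nat.card {t : K // t ∈ T ∧ spans O (w + t • x)} := by
    intro w hw
    have h1 : ∀ Q : ↥(orb (p ^ h) x T (Projectivization.mk K w (ne_zero_of F hw)) ∩ O),
        ∃ t : {t : K // t ∈ T ∧ spans O (w + t • x)},
          Projectivization.mk K (w + t.1 • x) (ne_zero_of F (shift_one F hxx' hw t.1)) = Q.1 := by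
      rintro ⟨Q, hQ1, hQ2⟩
      obtain ⟨t, ht, htQ⟩ := (mem_orb F hF hxx' T hw Q).1 hQ1
      refine ⟨⟨t, ht, ne_zero_of F (shift_one F hxx' hw t), ?_⟩, htQ⟩
      rw [htQ]
      exact hQ2
    choose f hf using h1
    apply Nat.card_le_card_of_injective f
    intro Q Q' hQQ
    apply Subtype.ext
    rw [← hf Q, ← hf Q']
    congr 2
    rw [hQQ]
  have p1 : Nat.card {B : Set (ℙ K (Fin (2 * n + 2) → K)) // ∃ P, Far (p ^ h) x P ∧
        B = orb (p ^ h) x T P ∧ Nat.card T < 2 * Nat.card ↥(B ∩ O)} ≤ bound n p h r := by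
    have h1 : ∀ B : {B : Set (ℙ K (Fin (2 * n + 2) → K)) // ∃ P, Far (p ^ h) x P ∧
        B = orb (p ^ h) x T P ∧ Nat.card T < 2 * Nat.card ↥(B ∩ O)},
        ∃ w, ∃ hw : F.H w x = 1,
          B.1 = orb (p ^ h) x T (Projectivization.mk K w (ne_zero_of F hw)) ∧
          Nat.card T < 2 * Nat.card ↥(B.1 ∩ O) := by
      rintro ⟨B, P, hP, hB, hrich⟩
      obtain ⟨w, hw, hwP⟩ := far_vec F hF hP
      exact ⟨w, hw, by rw [hwP]; exact hB, hrich⟩
    choose w hw hB hrich using h1
    refine family_le hp hK F hF hb O hO x hxx' T hT hTc w hw ?_ ?_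
    · intro B B' t ht hBB
      apply Subtype.ext
      rw [hB B, hB B']
      have h2 : F.H (w B + t • x) x = 1 := shift_one F hxx' (hw B) t
      rw [← orb_shift F hF hxx' T (hw B) ht]
      congr 2
      exact hBB.symm
    · intro B
      have h3 := hone (w B) (hw B)
      rw [← hB B] at h3
      have h4 := hrich B
      omega
  have hfull : (∀ P ∈ O, orb (p ^ h) x T P ⊆ O) → ∀ P ∈ O, Far (p ^ h) x P →
      Nat.card T < 2 * Nat.card ↥(orb (p ^ h) x T P ∩ O) := by
    intro hinv P hPO hP
    obtain ⟨w, hw, hwP⟩ := far_vec F hF hP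
    have h1 : Nat.card T ≤ Nat.card ↥(orb (p ^ h) x T P ∩ O) := by
      have h2 : ∀ t : T, Projectivization.mk K (w + t.1 • x)
          (ne_zero_of F (shift_one F hxx' hw t.1)) ∈ orb (p ^ h) x T P ∩ O := by
        intro t
        have h3 : Projectivization.mk K (w + t.1 • x)
            (ne_zero_of F (shift_one F hxx' hw t.1)) ∈ orb (p ^ h) x T P := by
          rw [← hwP, mem_orb F hF hxx' T hw]
          exact ⟨t.1, t.2, rfl⟩
        exact ⟨h3, hinv P hPO h3⟩
      apply Nat.card_le_card_of_injective (fun t : T => (⟨_, h2 t⟩ :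
        ↥(orb (p ^ h) x T P ∩ O)))
      intro t t' htt
      apply Subtype.ext
      exact shift_inj F hx hxx' hw (congrArg Subtype.val htt)
    have h4 : 0 < Nat.card T := Nat.card_pos
    omega
  have p2 : (∀ P ∈ O, orb (p ^ h) x T P ⊆ O) →
      Nat.card {P // P ∈ O ∧ Far (p ^ h) x P} ≤ Nat.card T * bound n p h r := by
    intro hinv
    have h1 : ∀ P : {P // P ∈ O ∧ Far (p ^ h) x P}, ∃ B : {B : Set (ℙ K (Fin (2 * n + 2) → K)) //
        ∃ P, Far (p ^ h) x P ∧ B = orb (p ^ h) x T P ∧ Nat.card T < 2 * Nat.card ↥(B ∩ O)},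
        P.1 ∈ B.1 := by
      rintro ⟨P, hPO, hP⟩
      refine ⟨⟨orb (p ^ h) x T P, P, hP, rfl, hfull hinv P hPO hP⟩, ?_⟩
      obtain ⟨w, hw, hwP⟩ := far_vec F hF hP
      show P ∈ orb (p ^ h) x T P
      rw [← hwP, mem_orb F hF hxx' T hw]
      refine ⟨0, T.zero_mem, ?_⟩
      congr 1
      rw [zero_smul, add_zero]
    choose f hf using h1
    have h2 : ∀ B : {B : Set (ℙ K (Fin (2 * n + 2) → K)) //
        ∃ P, Far (p ^ h) x P ∧ B = orb (p ^ h) x T P ∧ Nat.card T < 2 * Nat.card ↥(B ∩ O)},
        ∃ g : ℙ K (Fin (2 * n + 2) → K) → T, ∀ P ∈ B.1, ∀ Q ∈ B.1, g P = g Q → P = Q := by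
      rintro ⟨B, P0, hP0, rfl, _⟩
      obtain ⟨w, hw, hwP⟩ := far_vec F hF hP0
      have h3 : ∀ P : ℙ K (Fin (2 * n + 2) → K), ∃ t : T, P ∈ orb (p ^ h) x T P0 →
          Projectivization.mk K (w + t.1 • x) (ne_zero_of F (shift_one F hxx' hw t.1)) = P := by
        intro P
        by_cases hP : P ∈ orb (p ^ h) x T P0
        · have h4 := hP
          rw [← hwP, mem_orb F hF hxx' T hw] at h4
          obtain ⟨t, ht, htP⟩ := h4
          exact ⟨⟨t, ht⟩, fun _ => htP⟩
        · exact ⟨0, fun h => absurd h hP⟩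
      choose g hg using h3
      refine ⟨g, ?_⟩
      intro P hP Q hQ hPQ
      rw [← hg P hP, ← hg Q hQ]
      congr 2
      rw [hPQ]
    choose g hg using h2
    have h5 : Nat.card {P // P ∈ O ∧ Far (p ^ h) x P} ≤
        Nat.card (T × {B : Set (ℙ K (Fin (2 * n + 2) → K)) //
        ∃ P, Far (p ^ h) x P ∧ B = orb (p ^ h) x T P ∧ Nat.card T < 2 * Nat.card ↥(B ∩ O)}) := by
      apply Nat.card_le_card_of_injective (fun P => (g (f P) P.1, f P))
      intro P Q hPQ
      have h6 : f P = f Q := congrArg Prod.snd hPQ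
      have h7 : g (f P) P.1 = g (f Q) Q.1 := congrArg Prod.fst hPQ
      apply Subtype.ext
      rw [← h6] at h7
      exact hg (f P) _ (hf P) _ (by rw [h6]; exact hf Q) h7
    rw [Nat.card_prod] at h5
    exact h5.trans (Nat.mul_le_mul_left _ p1)
  refine ⟨p1, p2, ?_, ?_⟩
  · intro hinv hxO
    obtain ⟨P0, hP0, hxP0⟩ := hxO
    have hP0s : P0 = Projectivization.mk K x hx := by
      rw [Projectivization.submodule_eq, Submodule.mem_span_singleton] at hxP0
      obtain ⟨a, ha⟩ := hxP0
      rw [← Projectivization.mk_rep P0]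
      symm
      rw [Projectivization.mk_eq_mk_iff']
      exact ⟨a, ha⟩
    have h1 : ∀ P ∈ O, P ≠ P0 → Far (p ^ h) x P := by
      intro P hP hne
      refine ⟨P.rep, by rw [Projectivization.submodule_eq]; exact Submodule.mem_span_singleton_self _,
        ?_⟩
      intro h2
      apply hne
      rw [← hF] at h2
      obtain ⟨a, ha⟩ := par F hF hO P.rep x ⟨P.rep_nonzero, by rwa [Projectivization.mk_rep]⟩
        ⟨hx, by rw [← hP0s]; exact hP0⟩ h2
      rw [hP0s, ← Projectivization.mk_rep P]
      symm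
      rw [Projectivization.mk_eq_mk_iff']
      exact ⟨a, ha.symm⟩
    have h3 : Nat.card O ≤ Nat.card (Option {P // P ∈ O ∧ Far (p ^ h) x P}) := by
      apply Nat.card_le_card_of_injective (fun P : O => if hP : P.1 = P0 then none else
        some ⟨P.1, P.2, h1 P.1 P.2 hP⟩)
      intro P Q hPQ
      simp only at hPQ
      by_cases hP : P.1 = P0
      · by_cases hQ : Q.1 = P0
        · exact Subtype.ext (hP.trans hQ.symm)
        · rw [dif_pos hP, dif_neg hQ] at hPQ
          exact absurd hPQ (by simp)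
      · by_cases hQ : Q.1 = P0
        · rw [dif_neg hP, dif_pos hQ] at hPQ
          exact absurd hPQ (by simp)
        · rw [dif_neg hP, dif_neg hQ, Option.some_inj] at hPQ
          exact Subtype.ext (congrArg (fun z : {P // P ∈ O ∧ Far (p ^ h) x P} => z.1) hPQ)
    rw [Finite.card_option] at h3
    have h4 := p2 hinv
    omega
  · let Z : AddSubgroup K :=
      { carrier := {t | t + F.bar t = 0}
        zero_mem' := by
          simp only [Set.mem_ofPred_eq]
          rw [map_zero, add_zero]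
        add_mem' := by
          intro a b ha hb
          simp only [Set.mem_ofPred_eq] at ha hb ⊢
          rw [map_add]
          linear_combination ha + hb
        neg_mem' := by
          intro a ha
          simp only [Set.mem_ofPred_eq] at ha ⊢
          rw [map_neg, ← neg_add, ha, neg_zero] }
    have hZ1 : ∀ t ∈ Z, t + t ^ p ^ h = 0 := by
      intro t ht
      rw [← hb]
      exact ht
    have hZc : Nat.card Z = p ^ h := by
      have h1 := Rov.card_trace_zero_eq hK F.bar hb F.bb
      rw [← h1]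
      apply Nat.card_congr
      exact Equiv.subtypeEquivRight (fun a => by
        show a + F.bar a = 0 ↔ a + a ^ p ^ h = 0
        rw [hb])
    have hZc' : Nat.card Z * p ^ 0 = p ^ h := by rw [pow_zero, mul_one, hZc]
    have hvec : ∀ L : {L : Submodule K (Fin (2 * n + 2) → K) // Module.finrank K L = 2 ∧ x ∈ L ∧
        (∃ u ∈ L, herm (p ^ h) u x ≠ 0) ∧
        p ^ h < 2 * Nat.card {P : ℙ K (Fin (2 * n + 2) → K) //
          P ∈ O ∧ P.submodule ≤ L ∧ x ∉ P.submodule}},
        ∃ w, F.H w x = 1 ∧ L.1 = Submodule.span K {x, w} ∧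
          Nat.card Z < 2 * Nat.card {t : K // t ∈ Z ∧ spans O (w + t • x)} := by
      rintro ⟨L, hL2, hxL, ⟨u0, hu0L, hu0⟩, hrich⟩
      -- points of `L` other than `x` are far
      have hspan : ∀ w ∈ L, F.H w x ≠ 0 → L = Submodule.span K {x, w} := by
        intro w hwL hw
        have hli : LinearIndependent K ![x, w] := by
          rw [LinearIndependent.pair_iff]
          intro a b hab
          have e1 : F.H (a • x + b • w) x = 0 := by rw [hab, F.zerol]
          rw [F.addl, F.smull, F.smull, hxx', mul_zero, zero_add] at e1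
          have e2 : b = 0 := (mul_eq_zero.1 e1).resolve_right hw
          rw [e2, zero_smul, add_zero] at hab
          exact ⟨(smul_eq_zero.1 hab).resolve_right hx, e2⟩
        have h2 : Submodule.span K {x, w} ≤ L := by
          rw [Submodule.span_le]
          intro y hy
          rcases hy with rfl | hy
          · exact hxL
          · rw [Set.mem_singleton_iff.1 hy]
            exact hwL
        have h3 : Module.finrank K (Submodule.span K ({x, w} : Set (Fin (2 * n + 2) → K))) = 2 := by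
          have h4 := finrank_span_eq_card hli
          rw [Fintype.card_fin] at h4
          rwa [Matrix.range_cons, Matrix.range_cons, Matrix.range_empty, Set.union_empty,
            Set.singleton_union] at h4
        exact (Submodule.eq_of_le_of_finrank_eq h2 (by rw [h3, hL2])).symm
      have hLdec : ∀ w ∈ L, F.H w x = 1 → ∀ v ∈ L, ∃ a b : K, v = a • x + b • w := by
        intro w hwL hw v hv
        rw [hspan w hwL (by rw [hw]; exact one_ne_zero), Submodule.mem_span_pair] at hv
        obtain ⟨a, b, hab⟩ := hv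
        exact ⟨a, b, hab.symm⟩
      -- every point of `O` on `L` other than `x` is far
      have hpt : ∀ P : ℙ K (Fin (2 * n + 2) → K), P ∈ O → P.submodule ≤ L → x ∉ P.submodule →
          ∃ w, ∃ hw : F.H w x = 1, w ∈ L ∧ Projectivization.mk K w (ne_zero_of F hw) = P := by
        intro P hPO hPL hxP
        have hrepP : P.rep ∈ P.submodule := by
          rw [Projectivization.submodule_eq]
          exact Submodule.mem_span_singleton_self _
        have hfar : Far (p ^ h) x P := by
          refine ⟨P.rep, hrepP, ?_⟩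
          intro h1
          rw [← hF] at h1 hu0
          have hnorm : F.H ((F.H u0 x)⁻¹ • u0) x = 1 := by
            rw [F.smull, inv_mul_cancel₀ hu0]
          obtain ⟨a, b, hab⟩ := hLdec _ (L.smul_mem _ hu0L) hnorm P.rep (hPL hrepP)
          rw [hab, F.addl, F.smull, hxx', mul_zero, zero_add, F.smull b, hnorm, mul_one] at h1
          rw [h1, zero_smul, add_zero] at hab
          apply hxP
          have ha : a ≠ 0 := by
            rintro rfl
            rw [zero_smul] at hab
            exact P.rep_nonzero hab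
          have h2 : x = a⁻¹ • P.rep := by
            rw [hab, smul_smul, inv_mul_cancel₀ ha, one_smul]
          rw [h2]
          exact P.submodule.smul_mem _ hrepP
        obtain ⟨w, hw, hwP⟩ := far_vec F hF hfar
        refine ⟨w, hw, ?_, hwP⟩
        apply hPL
        rw [← hwP, Projectivization.submodule_mk]
        exact Submodule.mem_span_singleton_self _
      have hne : Nonempty {P : ℙ K (Fin (2 * n + 2) → K) //
          P ∈ O ∧ P.submodule ≤ L ∧ x ∉ P.submodule} := by
        have h1 : 0 < Nat.card {P : ℙ K (Fin (2 * n + 2) → K) //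
          P ∈ O ∧ P.submodule ≤ L ∧ x ∉ P.submodule} := by omega
        exact (Nat.card_pos_iff.1 h1).1
      obtain ⟨P0, hP0O, hP0L, hP0x⟩ := hne
      obtain ⟨w, hw, hwL, hwP⟩ := hpt P0 hP0O hP0L hP0x
      refine ⟨w, hw, hspan w hwL (by rw [hw]; exact one_ne_zero), ?_⟩
      rw [hZc]
      have hww : F.H w w = 0 := iso F hF hO w ⟨ne_zero_of F hw, by rw [hwP]; exact hP0O⟩
      have hxw : F.H x w = 1 := by rw [← F.symm, hw, map_one]
      have h5 : ∀ P : {P : ℙ K (Fin (2 * n + 2) → K) //
          P ∈ O ∧ P.submodule ≤ L ∧ x ∉ P.submodule}, ∃ t : {t : K // t ∈ Z ∧ spans O (w + t • x)},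
          Projectivization.mk K (w + t.1 • x) (ne_zero_of F (shift_one F hxx' hw t.1)) = P.1 := by
        rintro ⟨P, hPO, hPL, hPx⟩
        obtain ⟨v, hv, hvL, hvP⟩ := hpt P hPO hPL hPx
        obtain ⟨a, b, hab⟩ := hLdec w hwL hw v hvL
        have hb1 : b = 1 := by
          rw [hab, F.addl, F.smull, F.smull, hxx', hw, mul_zero, zero_add, mul_one] at hv
          exact hv
        have hvw : v = w + a • x := by
          rw [hab, hb1, one_smul]
          exact add_comm _ _
        have hvv : F.H v v = 0 := iso F hF hO v ⟨ne_zero_of F hv, by rw [hvP]; exact hPO⟩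
        have haZ : a ∈ Z := by
          show a + F.bar a = 0
          rw [hvw, F.addl, F.smull, F.addr, F.addr, F.smulr, F.smulr, hww, hw, hxw, hxx'] at hvv
          linear_combination hvv
        have hmk : Projectivization.mk K (w + a • x) (ne_zero_of F (shift_one F hxx' hw a)) = P := by
          rw [← hvP]
          congr 1
          exact hvw.symm
        exact ⟨⟨a, haZ, ne_zero_of F (shift_one F hxx' hw a), by rw [hmk]; exact hPO⟩, hmk⟩
      choose f hf using h5
      have h6 : Nat.card {P : ℙ K (Fin (2 * n + 2) → K) //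
          P ∈ O ∧ P.submodule ≤ L ∧ x ∉ P.submodule} ≤
          Nat.card {t : K // t ∈ Z ∧ spans O (w + t • x)} := by
        apply Nat.card_le_card_of_injective f
        intro P Q hPQ
        apply Subtype.ext
        rw [← hf P, ← hf Q]
        congr 2
        rw [hPQ]
      omega
    choose w hw hLw hrich using hvec
    refine family_le hp hK F hF hb O hO x hxx' Z hZ1 hZc' w hw ?_ hrich
    intro L L' t ht hLL
    apply Subtype.ext
    rw [hLw L, hLw L', hLL]
    apply le_antisymm
    · rw [Submodule.span_le]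
      intro y hy
      rcases hy with rfl | hy
      · exact Submodule.subset_span (Set.mem_insert _ _)
      · rw [Set.mem_singleton_iff.1 hy]
        have h1 : (w L + t • x) - t • x ∈ Submodule.span K {x, w L + t • x} := by
          apply Submodule.sub_mem
          · exact Submodule.subset_span (Set.mem_insert_of_mem _ rfl)
          · exact Submodule.smul_mem _ _ (Submodule.subset_span (Set.mem_insert _ _))
        rwa [add_sub_cancel_right] at h1
    · rw [Submodule.span_le]
      intro y hy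
      rcases hy with rfl | hy
      · exact Submodule.subset_span (Set.mem_insert _ _)
      · rw [Set.mem_singleton_iff.1 hy]
        apply Submodule.add_mem
        · exact Submodule.subset_span (Set.mem_insert_of_mem _ rfl)
        · exact Submodule.smul_mem _ _ (Submodule.subset_span (Set.mem_insert _ _))

theorem ovoid_isPartial {q m : ℕ} {O : Set (ℙ K (Fin m → K))} (hO : IsOvoid q O) :
    IsPartialOvoid q O := by
  refine ⟨hO.1, ?_⟩
  intro M hM P hP Q hQ hPM hQM
  exact (hO.2 M hM).unique ⟨hP, hPM⟩ ⟨hQ, hQM⟩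

theorem ovoid_Ov {q m : ℕ} (F : Ovo.HF K (Fin m → K)) (hF : ∀ x y, F.H x y = herm q x y)
    {O : Set (ℙ K (Fin m → K))} (hO : IsOvoid q O) : F.Ov (spans O) where
  ne := fun v hv => hv.1
  iso := by
    rintro v ⟨hv, hvO⟩
    rw [hF]
    apply hO.1 _ hvO
    · rw [Projectivization.submodule_mk]
      exact Submodule.mem_span_singleton_self v
    · rw [Projectivization.submodule_mk]
      exact Submodule.mem_span_singleton_self v
  sm := by
    rintro a v ha ⟨hv, hvO⟩
    refine ⟨smul_ne_zero ha hv, ?_⟩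
    have h1 : Projectivization.mk K (a • v) (smul_ne_zero ha hv) = Projectivization.mk K v hv := by
      rw [Projectivization.mk_eq_mk_iff']
      exact ⟨a, rfl⟩
    rw [h1]
    exact hvO
  ex := by
    intro M hM
    rw [TI_eq F hF] at hM
    obtain ⟨P, ⟨hP1, hP2⟩, _⟩ := hO.2 M hM
    refine ⟨P.rep, hP2 ?_, P.rep_nonzero, by rwa [Projectivization.mk_rep]⟩
    rw [Projectivization.submodule_eq]
    exact Submodule.mem_span_singleton_self _
  uniq := by
    rintro M hM v hv w hw ⟨hv0, hvO⟩ ⟨hw0, hwO⟩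
    rw [TI_eq F hF] at hM
    have h1 := (hO.2 M hM).unique (y₁ := Projectivization.mk K v hv0)
      (y₂ := Projectivization.mk K w hw0)
      ⟨hvO, by rwa [Projectivization.submodule_mk, Submodule.span_singleton_le_iff_mem]⟩
      ⟨hwO, by rwa [Projectivization.submodule_mk, Submodule.span_singleton_le_iff_mem]⟩
    obtain ⟨a, ha⟩ := (Projectivization.mk_eq_mk_iff' K w v hw0 hv0).1 h1.symm
    exact ⟨a, ha.symm⟩

/-- An ovoid of `H(2n+1,q^2)` has `q^(2n+1) + 1` points. -/
theorem card_ovoid [Finite K] {q n : ℕ} (hK : Nat.card K = q ^ 2)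
    (O : Set (ℙ K (Fin (2 * n + 2) → K))) (hO : IsOvoid q O) :
    Nat.card O = q ^ (2 * n + 1) + 1 := by
  classical
  have i0 : Fintype K := Fintype.ofFinite K
  have hq := Ovo.two_le_q hK
  obtain ⟨F, hF, hb⟩ := exists_form (m := 2 * n + 2) hK
  have h1 := Rov.ovoid_vectors hK F hF hb (ovoid_Ov F hF hO)
  have h2 : Nat.card (O × Kˣ) = Nat.card {v : Fin (2 * n + 2) → K // spans O v} := by
    refine Nat.card_eq_of_bijective (fun z : O × Kˣ => (⟨(z.2 : K) • z.1.1.rep,
      smul_ne_zero z.2.ne_zero z.1.1.rep_nonzero, ?_⟩ : {v // spans O v})) ⟨?_, ?_⟩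
    · have h3 : Projectivization.mk K ((z.2 : K) • z.1.1.rep)
          (smul_ne_zero z.2.ne_zero z.1.1.rep_nonzero) = z.1.1 := by
        conv_rhs => rw [← Projectivization.mk_rep z.1.1]
        rw [Projectivization.mk_eq_mk_iff']
        exact ⟨z.2, rfl⟩
      rw [h3]
      exact z.1.2
    · rintro ⟨P, a⟩ ⟨Q, b⟩ hPQ
      have h4 : (a : K) • P.1.rep = (b : K) • Q.1.rep := congrArg Subtype.val hPQ
      have h5 : P = Q := by
        apply Subtype.ext
        rw [← Projectivization.mk_rep P.1, ← Projectivization.mk_rep Q.1,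
          Projectivization.mk_eq_mk_iff']
        exact ⟨(a : K)⁻¹ * b, by rw [mul_smul, ← h4, smul_smul, inv_mul_cancel₀ a.ne_zero, one_smul]⟩
      subst h5
      have h6 : ((a : K) - b) • P.1.rep = 0 := by rw [sub_smul, h4, sub_self]
      have h7 : (a : K) = b := sub_eq_zero.1 ((smul_eq_zero.1 h6).resolve_right P.1.rep_nonzero)
      rw [Units.ext h7]
    · rintro ⟨v, hv, hvO⟩
      obtain ⟨a, ha⟩ := Projectivization.exists_smul_eq_mk_rep K v hv
      refine ⟨⟨⟨_, hvO⟩, a⁻¹⟩, ?_⟩
      apply Subtype.ext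
      show ((a⁻¹ : Kˣ) : K) • (Projectivization.mk K v hv).rep = v
      rw [← ha]
      show (a⁻¹ : Kˣ) • (a • v) = v
      rw [inv_smul_smul]
  have h3 : Nat.card Kˣ = q ^ 2 - 1 := by
    rw [Nat.card_eq_fintype_card, Fintype.card_units, ← Nat.card_eq_fintype_card, hK]
  rw [Nat.card_prod, h1, h3, mul_comm] at h2
  apply Nat.eq_of_mul_eq_mul_left _ h2
  have h4 : 2 ^ 2 ≤ q ^ 2 := Nat.pow_le_pow_left hq 2
  omega

/-- Let `p` be a prime, `n` a natural number.

(1) Let `q = p^h`, let `K` be the field with `q^2` elements, let `O` be a partial ovoid of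
`H(2n+1,q^2)`, let `x` span a singular point (in `O` or not). For every group `T` of transvections
with centre `x`, of order `q/p^r`, at most `bound n p h r` orbits of `T` on the points not
perpendicular to `x` have more than half of their points in `O`. At most `cst n p ^ h` hyperbolic
lines through `x` have more than `q/2` points of `O` other than `x`.

(2) If `O` is an ovoid, `x` a point of `O` and `T` preserves `O`, then
`p^r q^(2n) ≤ bound n p h r`.

(3) If `cst n p < p^(2n)` there is `δ > 0`, depending on `n` and `p` only, such that for all `h` and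
all ovoids `O` of `H(2n+1,q^2)`, `q = p^h`, a group of transvections which preserves `O` and has
its centre in `O` has order at most `q^(1-δ)`. -/
theorem result (n p : ℕ) (hp : p.Prime) :
    (∀ (h : ℕ) (K : Type) [Field K], Nat.card K = (p ^ h) ^ 2 →
      ∀ (O : Set (ℙ K (Fin (2 * n + 2) → K))) (x : Fin (2 * n + 2) → K),
      IsPartialOvoid (p ^ h) O → IsSingular (p ^ h) x →
      (∀ (r : ℕ) (T : AddSubgroup K), IsTr (p ^ h) T → Nat.card T * p ^ r = p ^ h →
        Nat.card (richOrbits (p ^ h) x T O) ≤ bound n p h r) ∧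
      Nat.card (richLines (p ^ h) x O) ≤ cst n p ^ h) ∧
    (∀ (h r : ℕ) (K : Type) [Field K], Nat.card K = (p ^ h) ^ 2 →
      ∀ (O : Set (ℙ K (Fin (2 * n + 2) → K))) (x : Fin (2 * n + 2) → K) (T : AddSubgroup K),
      IsOvoid (p ^ h) O → IsTr (p ^ h) T → Nat.card T * p ^ r = p ^ h →
      Preserves (p ^ h) x T O → p ^ r * (p ^ h) ^ (2 * n) ≤ bound n p h r) ∧
    (cst n p < p ^ (2 * n) → ∃ δ : ℝ, 0 < δ ∧
      ∀ (h : ℕ) (K : Type) [Field K], Nat.card K = (p ^ h) ^ 2 →
      ∀ (O : Set (ℙ K (Fin (2 * n + 2) → K))) (x : Fin (2 * n + 2) → K) (T : AddSubgroup K),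
      IsOvoid (p ^ h) O → IsTr (p ^ h) T → Preserves (p ^ h) x T O →
      (Nat.card T : ℝ) ≤ ((p : ℝ) ^ h) ^ (1 - δ)) := by
  have hfin : ∀ (h : ℕ) (K : Type) [Field K], Nat.card K = (p ^ h) ^ 2 → Finite K := by
    intro h K _ hK
    exact Nat.finite_of_card_ne_zero (by
      rw [hK]
      exact pow_ne_zero _ (pow_ne_zero _ hp.ne_zero))
  have p3 : ∀ (h r : ℕ) (K : Type) [Field K], Nat.card K = (p ^ h) ^ 2 →
      ∀ (O : Set (ℙ K (Fin (2 * n + 2) → K))) (x : Fin (2 * n + 2) → K) (T : AddSubgroup K),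
      IsOvoid (p ^ h) O → IsTr (p ^ h) T → Nat.card T * p ^ r = p ^ h →
      Preserves (p ^ h) x T O → p ^ r * (p ^ h) ^ (2 * n) ≤ bound n p h r := by
    rintro h r K _ hK O x T hO hT hTc ⟨hx, hxO, hinv⟩
    have i0 := hfin h K hK
    have hxx : herm (p ^ h) x x = 0 := by
      obtain ⟨P, hP, hxP⟩ := hxO
      exact hO.1 P hP x hxP x hxP
    have h1 := (main_bounds p h n r hp hK O (ovoid_isPartial hO) x hx hxx T hT hTc).2.2.1 hinv hxO
    rw [card_ovoid hK O hO] at h1
    have h2 : (p ^ h) ^ (2 * n + 1) ≤ Nat.card T * bound n p h r := by omega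
    have hq : 0 < p ^ h := pow_pos hp.pos _
    have h3 : p ^ h * (p ^ r * (p ^ h) ^ (2 * n)) ≤ p ^ h * bound n p h r := by
      calc p ^ h * (p ^ r * (p ^ h) ^ (2 * n)) = p ^ r * (p ^ h) ^ (2 * n + 1) := by ring
        _ ≤ p ^ r * (Nat.card T * bound n p h r) := Nat.mul_le_mul_left _ h2
        _ = (Nat.card T * p ^ r) * bound n p h r := by ring
        _ = p ^ h * bound n p h r := by rw [hTc]
    exact Nat.le_of_mul_le_mul_left h3 hq
  refine ⟨?_, p3, ?_⟩
  · intro h K _ hK O x hO hx
    have i0 := hfin h K hK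
    constructor
    · intro r T hT hTc
      exact (main_bounds p h n r hp hK O hO x hx.1 hx.2 T hT hTc).1
    · have hbT : ∀ t ∈ (⊥ : AddSubgroup K), t + t ^ p ^ h = 0 := by
        intro t ht
        rw [AddSubgroup.mem_bot.1 ht, zero_pow (pow_ne_zero _ hp.ne_zero), add_zero]
      have hbc : Nat.card (⊥ : AddSubgroup K) * p ^ h = p ^ h := by
        rw [AddSubgroup.card_bot, one_mul]
      have h1 := (main_bounds p h n h hp hK O hO x hx.1 hx.2 ⊥ hbT hbc).2.2.2
      have h2 : bound n p h 0 = cst n p ^ h := by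
        rw [bound, mul_zero, Nat.choose_zero_right, mul_one]
      rw [h2] at h1
      exact h1
  · intro hc
    obtain ⟨δ, hδ0, hδ⟩ := Rov.exists_delta p n (cst n p) hp.two_le hc
    refine ⟨δ, hδ0, ?_⟩
    intro h K _ hK O x T hO hT hinv
    have i0 := hfin h K hK
    obtain ⟨F, hF, hb⟩ := exists_form (m := 2 * n + 2) hK
    let Z : AddSubgroup K :=
      { carrier := {t | t + F.bar t = 0}
        zero_mem' := by
          simp only [Set.mem_ofPred_eq]
          rw [map_zero, add_zero]
        add_mem' := by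
          intro a b ha hb
          simp only [Set.mem_ofPred_eq] at ha hb ⊢
          rw [map_add]
          linear_combination ha + hb
        neg_mem' := by
          intro a ha
          simp only [Set.mem_ofPred_eq] at ha ⊢
          rw [map_neg, ← neg_add, ha, neg_zero] }
    have hZc : Nat.card Z = p ^ h := by
      have h1 := Rov.card_trace_zero_eq hK F.bar hb F.bb
      rw [← h1]
      apply Nat.card_congr
      exact Equiv.subtypeEquivRight (fun a => by
        show a + F.bar a = 0 ↔ a + a ^ p ^ h = 0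
        rw [hb])
    have hTZ : T ≤ Z := by
      intro t ht
      show t + F.bar t = 0
      rw [hb]
      exact hT t ht
    have hdvd := AddSubgroup.card_dvd_of_le hTZ
    rw [hZc] at hdvd
    obtain ⟨k, hk, hkT⟩ := (Nat.dvd_prime_pow hp).1 hdvd
    have hTc : Nat.card T * p ^ (h - k) = p ^ h := by
      rw [hkT, ← pow_add, Nat.add_sub_cancel' hk]
    have h1 := hδ h (h - k) (p3 h (h - k) K hK O x T hO hT hTc hinv)
    rw [Nat.cast_sub hk] at h1
    rw [hkT, Nat.cast_pow, ← Real.rpow_natCast (p : ℝ) h, ← Real.rpow_mul (Nat.cast_nonneg p),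
      ← Real.rpow_natCast (p : ℝ) k]
    apply Real.rpow_le_rpow_of_exponent_le
    · exact_mod_cast hp.one_le
    · linarith

end Pool.Agent.Results.MP_c6a9b1_co.RichOrbits
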